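import Pool.Agent.H98.ABCR.Stmts

set_option autoImplicit false

namespace Pool.Agent.H98.ABCR

open Finset Polynomial

private theorem arc_ht_pos {x y : ℤ} (h : IsSol x y) : (0 : ℝ) < ht x y := by
  have h1 := Int.natAbs_pos.2 h.x0
  have : 0 < ht x y := by
    unfold ht
    omega
  exact_mod_cast this

private theorem arc_z_pos {x y : ℤ} (h : IsSol x y) : (0 : ℝ) < |((x + y : ℤ) : ℝ)| := by
  rw [abs_pos]
  exact_mod_cast h.z0

private theorem arc_abs_le {x y : ℤ} : |(x : ℝ)| ≤ ht x y ∧ |(y : ℝ)| ≤ ht x y := by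
  have e : ∀ z : ℤ, |(z : ℝ)| = (z.natAbs : ℝ) := by
    intro z
    rw [Nat.cast_natAbs, Int.cast_abs]
  rw [e, e]
  unfold ht
  constructor
  · exact_mod_cast (le_max_left _ _).trans (le_max_left _ _)
  · exact_mod_cast (le_max_right _ _).trans (le_max_left _ _)

private theorem arc_quot {x y : ℤ} (h : IsSol x y) {θ : ℝ}
    (hθ : θ * lh x y ≤ lh x y - Real.log |((x + y : ℤ) : ℝ)|) :
    |((x + y : ℤ) : ℝ)| / ht x y ≤ Real.exp (-(θ * lh x y)) := by
  have h1 := arc_ht_pos h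
  have h2 := arc_z_pos h
  rw [← Real.exp_log (div_pos h2 h1), Real.exp_le_exp, Real.log_div h2.ne' h1.ne']
  unfold lh at hθ ⊢
  linarith

private theorem arc_log4 {x y : ℤ} (h : IsSol x y) {θ : ℝ}
    (hθ : θ * lh x y ≤ lh x y - Real.log |((x + y : ℤ) : ℝ)|)
    (h4 : (ht x y : ℝ) < 4 * |((x + y : ℤ) : ℝ)|) : θ * lh x y ≤ Real.log 4 := by
  have h1 := arc_ht_pos h
  have h2 := arc_z_pos h
  have h3 := Real.log_le_log h1 h4.le
  rw [Real.log_mul (by norm_num) h2.ne'] at h3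
  unfold lh at hθ ⊢
  linarith

/-- archimedean estimate, general form -/
theorem arc_thm (h1 : S_TRV) (h2 : S_ARB) : S_ARC := by
  intro k r n M i p x1 y1 x2 y2 N D A Q θ hk hi hp s1 s2 hN hD hrel hNQ hDQ hdvd hθ w1 w2
  have hA : 0 ≤ A := le_trans (abs_nonneg _) (hp 0 (by simp) 0 (by simp))
  have hQ : 0 ≤ Q := le_trans (abs_nonneg _) hNQ
  have H1 := arc_ht_pos s1
  have H2 := arc_ht_pos s2
  have hM : 1 ≤ M := by omega
  have hk1 : 1 ≤ k := hk.pos
  set m := min (((M - i : ℕ) : ℝ) * lh x1 y1) (lh x2 y2) with hm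
  have hlog4 : 0 ≤ Real.log 4 := Real.log_nonneg (by norm_num)
  by_cases hc : 4 * |((x1 + y1 : ℤ) : ℝ)| ≤ ht x1 y1 ∧ 4 * |((x2 + y2 : ℤ) : ℝ)| ≤ ht x2 y2
  · have h3 := h2 k r n M i p x1 y1 x2 y2 N D A Q hk hi hp s1.y0 s2.y0 hN hD hrel hNQ hDQ hdvd
      hc.1 hc.2
    refine h3.trans ?_
    have q1 := arc_quot s1 w1
    have q2 := arc_quot s2 w2
    have q1' : (|((x1 + y1 : ℤ) : ℝ)| / ht x1 y1) ^ (M - i) ≤ Real.exp (-(θ * m)) := by
      refine (pow_le_pow_left₀ (by positivity) q1 _).trans ?_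
      rw [← Real.exp_nat_mul, Real.exp_le_exp]
      have : θ * m ≤ θ * (((M - i : ℕ) : ℝ) * lh x1 y1) :=
        mul_le_mul_of_nonneg_left (min_le_left _ _) hθ
      linarith
    have q2' : |((x2 + y2 : ℤ) : ℝ)| / ht x2 y2 ≤ Real.exp (-(θ * m)) := by
      refine q2.trans ?_
      rw [Real.exp_le_exp]
      have : θ * m ≤ θ * lh x2 y2 := mul_le_mul_of_nonneg_left (min_le_right _ _) hθ
      linarith
    have hpow : (64 : ℝ) ^ (k * n + r + M + 1) * 2 ≤ 256 ^ (k * n + r + M + 1) := by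
      have e1 : (256 : ℝ) ^ (k * n + r + M + 1) = 64 ^ (k * n + r + M + 1) * 4 ^ (k * n + r + M + 1) := by
        rw [← mul_pow]; norm_num
      rw [e1]
      apply mul_le_mul_of_nonneg_left _ (by positivity)
      have : (4 : ℝ) ^ 1 ≤ 4 ^ (k * n + r + M + 1) := pow_le_pow_right₀ (by norm_num) (by omega)
      linarith
    calc A * 64 ^ (k * n + r + M + 1) * (ht x1 y1 : ℝ) ^ n * Q ^ r *
        ((|((x1 + y1 : ℤ) : ℝ)| / ht x1 y1) ^ (M - i) + |((x2 + y2 : ℤ) : ℝ)| / ht x2 y2)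
        ≤ A * 64 ^ (k * n + r + M + 1) * (ht x1 y1 : ℝ) ^ n * Q ^ r *
          (Real.exp (-(θ * m)) + Real.exp (-(θ * m))) := by
          apply mul_le_mul_of_nonneg_left (add_le_add q1' q2') (by positivity)
      _ = (64 ^ (k * n + r + M + 1) * 2) * (A * (ht x1 y1 : ℝ) ^ n * Q ^ r *
          Real.exp (-(θ * m))) := by ring
      _ ≤ 256 ^ (k * n + r + M + 1) * (A * (ht x1 y1 : ℝ) ^ n * Q ^ r *
          Real.exp (-(θ * m))) := by
          apply mul_le_mul_of_nonneg_right hpow (by positivity)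
      _ = _ := by ring
  · have hmM : θ * m ≤ M * Real.log 4 := by
      rw [not_and_or, not_le, not_le] at hc
      rcases hc with hc | hc
      · have h4 := arc_log4 s1 w1 hc
        have h5 : θ * m ≤ θ * (((M - i : ℕ) : ℝ) * lh x1 y1) :=
          mul_le_mul_of_nonneg_left (min_le_left _ _) hθ
        have h6 : ((M - i : ℕ) : ℝ) ≤ M := by exact_mod_cast Nat.sub_le _ _
        calc θ * m ≤ ((M - i : ℕ) : ℝ) * (θ * lh x1 y1) := by linarith
          _ ≤ ((M - i : ℕ) : ℝ) * Real.log 4 := mul_le_mul_of_nonneg_left h4 (by positivity)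
          _ ≤ _ := mul_le_mul_of_nonneg_right h6 hlog4
      · have h4 := arc_log4 s2 w2 hc
        have h5 : θ * m ≤ θ * lh x2 y2 := mul_le_mul_of_nonneg_left (min_le_right _ _) hθ
        have h6 : (1 : ℝ) ≤ M := by exact_mod_cast hM
        calc θ * m ≤ 1 * Real.log 4 := by linarith
          _ ≤ _ := mul_le_mul_of_nonneg_right h6 hlog4
    have hexp : 1 ≤ (4 : ℝ) ^ M * Real.exp (-(θ * m)) := by
      have e1 : (4 : ℝ) ^ M = Real.exp (M * Real.log 4) := by
        rw [Real.exp_nat_mul, Real.exp_log (by norm_num)]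
      rw [e1, ← Real.exp_add]
      apply Real.one_le_exp
      linarith
    have h3 := h1 k r n i p x1 y1 N D A (ht x1 y1) Q hp arc_abs_le.1 arc_abs_le.2 hNQ hDQ
    refine h3.trans ?_
    have g1 : ((r : ℝ) + 1) * (n + 1) * 2 ^ (k * n + r) ≤ 4 ^ (k * n + r) := by
      have a1 : r + 1 ≤ 2 ^ r := Nat.lt_two_pow_self
      have a2 : n + 1 ≤ 2 ^ (k * n) := by
        have : n + 1 ≤ 2 ^ n := Nat.lt_two_pow_self
        refine this.trans (Nat.pow_le_pow_right (by norm_num) ?_)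
        exact Nat.le_mul_of_pos_left _ hk1
      have a3 : (r + 1) * (n + 1) ≤ 2 ^ (k * n + r) := by
        rw [pow_add, mul_comm (2 ^ (k * n))]
        exact Nat.mul_le_mul a1 a2
      have a4 : ((r : ℝ) + 1) * (n + 1) ≤ 2 ^ (k * n + r) := by exact_mod_cast a3
      have e1 : (4 : ℝ) ^ (k * n + r) = 2 ^ (k * n + r) * 2 ^ (k * n + r) := by
        rw [← mul_pow]; norm_num
      rw [e1]
      exact mul_le_mul_of_nonneg_right a4 (by positivity)
    have g2 : (4 : ℝ) ^ (k * n + r) * 4 ^ M ≤ 256 ^ (k * n + r + M + 1) := by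
      rw [← pow_add]
      calc (4 : ℝ) ^ (k * n + r + M) ≤ 4 ^ (k * n + r + M + 1) :=
            pow_le_pow_right₀ (by norm_num) (by omega)
        _ ≤ _ := pow_le_pow_left₀ (by norm_num) (by norm_num) _
    calc A * (r + 1) * (n + 1) * 2 ^ (k * n + r) * (ht x1 y1 : ℝ) ^ n * Q ^ r
        = (((r : ℝ) + 1) * (n + 1) * 2 ^ (k * n + r)) * (A * (ht x1 y1 : ℝ) ^ n * Q ^ r) := by ring
      _ ≤ 4 ^ (k * n + r) * (A * (ht x1 y1 : ℝ) ^ n * Q ^ r) :=
          mul_le_mul_of_nonneg_right g1 (by positivity)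
      _ ≤ 4 ^ (k * n + r) * (A * (ht x1 y1 : ℝ) ^ n * Q ^ r) *
          ((4 : ℝ) ^ M * Real.exp (-(θ * m))) := le_mul_of_one_le_right (by positivity) hexp
      _ = (4 ^ (k * n + r) * 4 ^ M) * (A * (ht x1 y1 : ℝ) ^ n * Q ^ r *
          Real.exp (-(θ * m))) := by ring
      _ ≤ 256 ^ (k * n + r + M + 1) * (A * (ht x1 y1 : ℝ) ^ n * Q ^ r *
          Real.exp (-(θ * m))) := mul_le_mul_of_nonneg_right g2 (by positivity)
      _ = _ := by ring

end Pool.Agent.H98.ABCR
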