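import Pool.Agent.H98.ABCR.Stmts

set_option autoImplicit false

namespace Pool.Agent.H98.ABCR

open Finset Polynomial

private theorem csp_coord_ne {v : ℕ × ℕ} (h : IsTri v) (s : Fin 3) : coord v s ≠ 0 := by
  obtain ⟨h1, h2, -⟩ := h
  fin_cases s
  · exact h1.ne'
  · exact h2.ne'
  · show v.1 + v.2 ≠ 0
    omega

/-- a prime divides at most one coordinate -/
private theorem csp_unique {v : ℕ × ℕ} (h : IsTri v) {q : ℕ} (hq : q.Prime) :
    ∃ s0 : Fin 3, (∀ s, s ≠ s0 → (coord v s).factorization q = 0) ∧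
      (coord v s0).factorization q = (nn v).factorization q := by
  obtain ⟨h1, h2, h3⟩ := h
  have hab : ¬ (q ∣ v.1 ∧ q ∣ v.2) := by
    rintro ⟨ha, hb⟩
    have := Nat.dvd_gcd ha hb
    rw [h3] at this
    exact hq.one_lt.ne' (Nat.dvd_one.1 this)
  have hac : ¬ (q ∣ v.1 ∧ q ∣ v.1 + v.2) := by
    rintro ⟨ha, hb⟩
    exact hab ⟨ha, (Nat.dvd_add_right ha).1 hb⟩
  have hbc : ¬ (q ∣ v.2 ∧ q ∣ v.1 + v.2) := by
    rintro ⟨ha, hb⟩
    exact hab ⟨(Nat.dvd_add_left ha).1 hb, ha⟩
  have hnn : (nn v).factorization q = v.1.factorization q + v.2.factorization q +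
      (v.1 + v.2).factorization q := by
    unfold nn
    rw [Nat.factorization_mul (by positivity) (by omega),
      Nat.factorization_mul (by omega) (by omega)]
    rfl
  have hz : ∀ n : ℕ, ¬ q ∣ n → n.factorization q = 0 := fun n hn =>
    Nat.factorization_eq_zero_of_not_dvd hn
  by_cases ha : q ∣ v.1
  · have hb : v.2.factorization q = 0 := hz _ fun hb => hab ⟨ha, hb⟩
    have hc : (v.1 + v.2).factorization q = 0 := hz _ fun hb => hac ⟨ha, hb⟩
    refine ⟨0, ?_, ?_⟩
    · intro s hs
      fin_cases s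
      · exact absurd rfl hs
      · exact hb
      · exact hc
    · rw [hnn, hb, hc]; rfl
  · have ha' : v.1.factorization q = 0 := hz _ ha
    by_cases hb : q ∣ v.2
    · have hc : (v.1 + v.2).factorization q = 0 := hz _ fun hc => hbc ⟨hb, hc⟩
      refine ⟨1, ?_, ?_⟩
      · intro s hs
        fin_cases s
        · exact ha'
        · exact absurd rfl hs
        · exact hc
      · rw [hnn, ha', hc, Nat.zero_add]; rfl
    · have hb' : v.2.factorization q = 0 := hz _ hb
      refine ⟨2, ?_, ?_⟩
      · intro s hs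
        fin_cases s
        · exact ha'
        · exact hb'
        · exact absurd rfl hs
      · rw [hnn, ha', hb', Nat.zero_add]; rfl

private theorem csp_prod {n : ℕ} (hn : n ≠ 0) {T : Finset ℕ} (hT : n.primeFactors ⊆ T) :
    n = ∏ q ∈ T, q ^ n.factorization q := by
  conv_lhs => rw [← Nat.prod_factorization_pow_eq_self hn]
  rw [Finsupp.prod_of_support_subset _ (s := T)]
  · rw [Nat.support_factorization]
    exact hT
  · intro i _
    exact pow_zero i

/-- the codes -/
private abbrev CspCode (k u : ℕ) : Type := Fin 3 × (u.primeFactors → Fin 3 × Fin k)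

private def cspAl {k u : ℕ} (c : CspCode k u) (s : Fin 3) : ℕ :=
  ∏ q : u.primeFactors, if (c.2 q).1 = s then (q : ℕ) ^ ((c.2 q).2 : ℕ) else 1

private theorem csp_code {k u : ℕ} (hk : 0 < k) {v : ℕ × ℕ} (h : IsTri v) {p : ℕ} (hp : p.Prime)
    (hR : RR v = u * p) (hkp : k ∣ (nn v).factorization p) :
    ∃ c : CspCode k u, (coord v c.1).primeFactors ⊆ u.primeFactors ∧
      ∀ s, s ≠ c.1 → ∃ U : ℕ, coord v s = cspAl c s * U ^ k := by
  classical
  have hnn0 : nn v ≠ 0 := by
    obtain ⟨h1, h2, -⟩ := h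
    unfold nn
    positivity
  have hpf : (nn v).primeFactors = (u * p).primeFactors := by
    rw [← hR]
    unfold RR rad
    rw [Nat.primeFactors_prod fun q hq => Nat.prime_of_mem_primeFactors hq]
  have hu0 : u ≠ 0 := by
    rintro rfl
    rw [Nat.zero_mul] at hR
    have : RR v ≠ 0 := by
      unfold RR rad
      rw [Finset.prod_ne_zero_iff]
      intro q hq
      exact (Nat.prime_of_mem_primeFactors hq).ne_zero
    exact this hR
  have hins : (u * p).primeFactors = insert p u.primeFactors := by
    rw [Nat.primeFactors_mul hu0 hp.ne_zero, hp.primeFactors, Finset.union_comm]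
    rfl
  have hsub : ∀ s, (coord v s).primeFactors ⊆ insert p u.primeFactors := by
    intro s
    rw [← hins, ← hpf]
    apply Nat.primeFactors_mono _ hnn0
    unfold nn
    fin_cases s
    · exact Dvd.dvd.mul_right (Dvd.intro _ rfl) _
    · exact Dvd.dvd.mul_right (Dvd.intro_left _ rfl) _
    · exact Dvd.intro_left _ rfl
  obtain ⟨t0, ht0, ht0'⟩ := csp_unique h hp
  obtain ⟨t, ht⟩ : ∃ t : Fin 3, t ≠ t0 := exists_ne t0
  have hch : ∀ q : u.primeFactors, ∃ s0 : Fin 3,
      ∀ s, s ≠ s0 → (coord v s).factorization q = 0 := by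
    intro q
    obtain ⟨s0, h1, -⟩ := csp_unique h (Nat.prime_of_mem_primeFactors q.2)
    exact ⟨s0, h1⟩
  choose σ hσ using hch
  refine ⟨(t, fun q => (σ q, ⟨(coord v (σ q)).factorization q % k, Nat.mod_lt _ hk⟩)), ?_, ?_⟩
  · intro q hq
    have hq' := hsub t hq
    rcases Finset.mem_insert.1 hq' with rfl | h1
    · exfalso
      have h2 := ht0 t ht
      have h3 := (Nat.mem_primeFactors.1 hq)
      have h4 : 1 ≤ (coord v t).factorization q :=
        (h3.1.dvd_iff_one_le_factorization h3.2.2).1 h3.2.1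
      omega
    · exact h1
  · intro s _
    -- the part composed of the primes of `u`
    have hpart : ∏ q ∈ u.primeFactors, q ^ (coord v s).factorization q =
        cspAl (k := k) (u := u) (t, fun q => (σ q, ⟨(coord v (σ q)).factorization q % k,
          Nat.mod_lt _ hk⟩)) s * (∏ q ∈ u.primeFactors, q ^ ((coord v s).factorization q / k)) ^ k := by
      unfold cspAl
      rw [← Finset.prod_pow, ← Finset.prod_coe_sort u.primeFactors
        (fun q => q ^ (coord v s).factorization q),
        ← Finset.prod_coe_sort u.primeFactors (fun q => (q ^ ((coord v s).factorization q / k)) ^ k),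
        ← Finset.prod_mul_distrib]
      apply Finset.prod_congr rfl
      intro q _
      by_cases hs : σ q = s
      · rw [if_pos hs]
        show (q : ℕ) ^ _ = (q : ℕ) ^ ((coord v (σ q)).factorization q % k) * _
        rw [hs, ← pow_mul, ← pow_add]
        congr 1
        have := Nat.mod_add_div ((coord v s).factorization q) k
        rw [mul_comm k] at this
        exact this.symm
      · rw [if_neg hs, hσ q s (Ne.symm hs)]
        simp
    have h1 := csp_prod (csp_coord_ne h s) (hsub s)
    by_cases hpu : p ∈ u.primeFactors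
    · rw [Finset.insert_eq_of_mem hpu] at h1
      exact ⟨_, by rw [← hpart]; exact h1⟩
    · rw [Finset.prod_insert hpu, hpart] at h1
      have hkd : k ∣ (coord v s).factorization p := by
        by_cases hs : s = t0
        · rw [hs, ht0']; exact hkp
        · rw [ht0 s hs]; exact dvd_zero k
      obtain ⟨m, hm⟩ := hkd
      refine ⟨p ^ m * ∏ q ∈ u.primeFactors, q ^ ((coord v s).factorization q / k), ?_⟩
      refine h1.trans ?_
      rw [hm, mul_pow, ← pow_mul, mul_comm m k]
      ring

/-- all large exponents divisible by `k` -/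
theorem csp_thm (h1 : S_TRU) : S_CSP := by
  obtain ⟨k0, C, hC, hT⟩ := h1
  refine ⟨k0, 3 * C, by linarith, ?_⟩
  intro k u F hk hodd hk0 _ hF
  classical
  have hkpos : 0 < k := hk.pos
  have hkR : (1 : ℝ) ≤ k := by exact_mod_cast hk.one_lt.le
  have hcode : ∀ v ∈ F, ∃ c : CspCode k u, (coord v c.1).primeFactors ⊆ u.primeFactors ∧
      ∀ s, s ≠ c.1 → ∃ U : ℕ, coord v s = cspAl c s * U ^ k := by
    intro v hv
    obtain ⟨ht, _, p, hp, hR, hkp⟩ := hF v hv
    exact csp_code hkpos ht hp hR hkp
  have : Nonempty (CspCode k u) := ⟨(0, fun _ => (0, ⟨0, hkpos⟩))⟩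
  choose! f hf using hcode
  have hfib : ∀ c ∈ F.image f, (F.filter fun v => f v = c).card ≤
      ⌊(C * k) ^ (u.primeFactors.card + 1)⌋₊ := by
    intro c _
    apply Nat.le_floor
    apply hT k u.primeFactors _ c.1 (cspAl c) hk hodd hk0
      (fun q hq => Nat.prime_of_mem_primeFactors hq)
    · intro s
      apply Finset.prod_pos
      intro q _
      split_ifs
      · exact Nat.pow_pos (Nat.prime_of_mem_primeFactors q.2).pos
      · exact Nat.one_pos
    · intro v hv
      rw [Finset.mem_filter] at hv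
      obtain ⟨hvF, rfl⟩ := hv
      obtain ⟨ht, hlog, -⟩ := hF v hvF
      refine ⟨ht, (hf v hvF).1, (hf v hvF).2, ?_⟩
      nlinarith
  have hcard := Finset.card_le_mul_card_image F _ hfib
  have himg : (F.image f).card ≤ 3 * (3 * k) ^ om u := by
    refine (Finset.card_le_univ _).trans ?_
    rw [Fintype.card_prod, Fintype.card_fun, Fintype.card_prod, Fintype.card_fin, Fintype.card_fin,
      Fintype.card_coe]
    rfl
  have h4 : (F.card : ℝ) ≤ (⌊(C * k) ^ (u.primeFactors.card + 1)⌋₊ : ℝ) *
      ((F.image f).card : ℝ) := by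
    exact_mod_cast hcard
  refine h4.trans ?_
  have h5 : (⌊(C * k) ^ (u.primeFactors.card + 1)⌋₊ : ℝ) ≤ (3 * C * k) ^ (om u + 1) := by
    refine (Nat.floor_le (by positivity)).trans ?_
    apply pow_le_pow_left₀ (by positivity)
    nlinarith
  have h6 : ((F.image f).card : ℝ) ≤ (3 * C * k) ^ (om u + 1) := by
    have h7 : ((F.image f).card : ℝ) ≤ 3 * (3 * (k : ℝ)) ^ om u := by exact_mod_cast himg
    refine h7.trans ?_
    have h8 : (3 : ℝ) * (3 * (k : ℝ)) ^ om u ≤ (3 * k) ^ (om u + 1) := by
      rw [pow_succ, mul_comm]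
      apply mul_le_mul_of_nonneg_left _ (by positivity)
      linarith
    refine h8.trans ?_
    apply pow_le_pow_left₀ (by positivity)
    nlinarith
  calc (⌊(C * k) ^ (u.primeFactors.card + 1)⌋₊ : ℝ) * ((F.image f).card : ℝ)
      ≤ (3 * C * k) ^ (om u + 1) * (3 * C * k) ^ (om u + 1) :=
        mul_le_mul h5 h6 (by positivity) (by positivity)
    _ = _ := by rw [← pow_add]; congr 1; ring

end Pool.Agent.H98.ABCR
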