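import Pool.Agent.H98.ABCR.Stmts

set_option autoImplicit false

namespace Pool.Agent.H98.ABCR

open Finset Polynomial

/-- the `k`-th power part of an integer composed of primes of `S` -/
private theorem eng_pow (S : Finset ℕ) (k : ℕ) (hk : Odd k) (x : ℤ) (hx : x ≠ 0)
    (hS : x.natAbs.primeFactors ⊆ S) :
    ∃ U : ℤ, x = ((∏ q ∈ S, q ^ (vv q x % k) : ℕ) : ℤ) * U ^ k := by
  have h0 : x.natAbs ≠ 0 := Int.natAbs_ne_zero.2 hx
  have h1 : x.natAbs = ∏ q ∈ S, q ^ (vv q x) := by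
    conv_lhs => rw [← Nat.prod_factorization_pow_eq_self h0]
    rw [Finsupp.prod_of_support_subset _ (s := S)]
    · rfl
    · rw [Nat.support_factorization]
      exact hS
    · intro i _
      exact pow_zero i
  have h2 : x.natAbs = (∏ q ∈ S, q ^ (vv q x % k)) * (∏ q ∈ S, q ^ (vv q x / k)) ^ k := by
    rw [← Finset.prod_pow, ← Finset.prod_mul_distrib, h1]
    apply Finset.prod_congr rfl
    intro q _
    rw [← pow_mul, ← pow_add]
    congr 1
    have := Nat.mod_add_div (vv q x) k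
    rw [mul_comm] at this
    exact this.symm
  rcases Int.natAbs_eq x with h | h
  · refine ⟨((∏ q ∈ S, q ^ (vv q x / k) : ℕ) : ℤ), ?_⟩
    conv_lhs => rw [h, h2]
    push_cast
    rfl
  · refine ⟨-((∏ q ∈ S, q ^ (vv q x / k) : ℕ) : ℤ), ?_⟩
    rw [hk.neg_pow]
    conv_lhs => rw [h, h2]
    push_cast
    ring

private theorem eng_small (M : ℕ) (F : Finset (ℤ × ℤ))
    (hF : ∀ v ∈ F, v.1.natAbs ≤ M ∧ v.2.natAbs ≤ M) : F.card ≤ (2 * M + 1) ^ 2 := by
  have h1 : F ⊆ Finset.Icc (-(M : ℤ)) M ×ˢ Finset.Icc (-(M : ℤ)) M := by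
    intro v hv
    obtain ⟨h1, h2⟩ := hF v hv
    rw [Finset.mem_product, Finset.mem_Icc, Finset.mem_Icc]
    omega
  refine (Finset.card_le_card h1).trans ?_
  rw [Finset.card_product, Int.card_Icc, pow_two]
  apply le_of_eq
  congr 1 <;> omega

/-- the engine for `S`-units -/
theorem eng_thm (h1 : S_UENG) : S_ENG := by
  intro δ hδ hδ1
  obtain ⟨k0, C1, hC1, hU⟩ := h1 δ hδ hδ1
  obtain ⟨k, hkk, hk⟩ := Nat.exists_infinite_primes (max k0 3)
  have hk0 : k0 ≤ k := (le_max_left _ _).trans hkk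
  have hk3 : 3 ≤ k := (le_max_right _ _).trans hkk
  have hodd : Odd k := hk.odd_of_ne_two (by omega)
  have hkpos : 0 < k := by omega
  have hkR : (1 : ℝ) ≤ k := by exact_mod_cast (by omega : 1 ≤ k)
  obtain ⟨M, hM⟩ : ∃ M : ℕ, M = ⌊Real.exp (C1 * k)⌋₊ := ⟨_, rfl⟩
  obtain ⟨K0, hK0⟩ : ∃ K0 : ℝ, K0 = (2 * (M : ℝ) + 1) ^ 2 := ⟨_, rfl⟩
  obtain ⟨K1, hK1⟩ : ∃ K1 : ℝ, K1 = (k : ℝ) * k * (C1 * k) := ⟨_, rfl⟩
  have hK0' : 1 ≤ K0 := by
    rw [hK0]
    have : (0 : ℝ) ≤ M := Nat.cast_nonneg M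
    nlinarith
  have hCk : 1 ≤ C1 * k := by nlinarith
  have hK1' : 0 ≤ K1 := by rw [hK1]; positivity
  refine ⟨K0 + K1, by linarith, ?_⟩
  intro S F hS hF
  classical
  -- small heights
  have hsmall : ((F.filter fun v => lh v.1 v.2 < C1 * k).card : ℝ) ≤ K0 := by
    have h2 : (F.filter fun v => lh v.1 v.2 < C1 * k).card ≤ (2 * M + 1) ^ 2 := by
      apply eng_small
      intro v hv
      rw [Finset.mem_filter] at hv
      obtain ⟨hvF, hlt⟩ := hv
      have hsol := (hF v hvF).1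
      have hht : ht v.1 v.2 ≤ M := by
        rw [hM]
        apply Nat.le_floor
        unfold lh at hlt
        have hpos : (0 : ℝ) < ht v.1 v.2 := by
          have : 0 < ht v.1 v.2 := by
            unfold ht
            have := Int.natAbs_pos.2 hsol.x0
            omega
          exact_mod_cast this
        rw [← Real.log_le_iff_le_exp hpos]
        exact hlt.le
      unfold ht at hht
      omega
    rw [hK0]
    exact_mod_cast h2
  -- large heights
  have hlarge : ((F.filter fun v => ¬ lh v.1 v.2 < C1 * k).card : ℝ) ≤ K1 ^ (S.card + 1) := by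
    set G := F.filter fun v => ¬ lh v.1 v.2 < C1 * k with hG
    let f : ℤ × ℤ → (S → Fin k × Fin k) := fun v q =>
      (⟨vv q v.1 % k, Nat.mod_lt _ hkpos⟩, ⟨vv q v.2 % k, Nat.mod_lt _ hkpos⟩)
    have hfib : ∀ c ∈ G.image f, (G.filter fun v => f v = c).card ≤
        ⌊(C1 * k) ^ (S.card + 1)⌋₊ := by
      intro c _
      apply Nat.le_floor
      let α : ℕ := ∏ q : S, (q : ℕ) ^ ((c q).1 : ℕ)
      let β : ℕ := ∏ q : S, (q : ℕ) ^ ((c q).2 : ℕ)
      have hα : 0 < α := Finset.prod_pos fun q _ => Nat.pow_pos (hS q q.2).pos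
      have hβ : 0 < β := Finset.prod_pos fun q _ => Nat.pow_pos (hS q q.2).pos
      apply hU k S (α : ℤ) (β : ℤ) _ hk hodd hk0 hS (by exact_mod_cast hα) (by exact_mod_cast hβ)
      intro v hv
      rw [Finset.mem_filter] at hv
      obtain ⟨hvG, hvc⟩ := hv
      rw [hG, Finset.mem_filter, not_lt] at hvG
      obtain ⟨hvF, hvh⟩ := hvG
      obtain ⟨hsol, hx, hy, hheavy⟩ := hF v hvF
      have eα : α = ∏ q ∈ S, q ^ (vv q v.1 % k) := by
        rw [← Finset.prod_coe_sort S fun q => q ^ (vv q v.1 % k)]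
        apply Finset.prod_congr rfl
        intro q _
        rw [← hvc]
      have eβ : β = ∏ q ∈ S, q ^ (vv q v.2 % k) := by
        rw [← Finset.prod_coe_sort S fun q => q ^ (vv q v.2 % k)]
        apply Finset.prod_congr rfl
        intro q _
        rw [← hvc]
      refine ⟨hsol, ?_, ?_, hheavy, hvh⟩
      · rw [eα]
        exact eng_pow S k hodd v.1 hsol.x0 hx
      · rw [eβ]
        exact eng_pow S k hodd v.2 hsol.y0.ne' hy
    have hcard := Finset.card_le_mul_card_image G _ hfib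
    have himg : (G.image f).card ≤ (k * k) ^ S.card := by
      refine (Finset.card_le_univ _).trans ?_
      rw [Fintype.card_fun, Fintype.card_prod, Fintype.card_fin, Fintype.card_coe]
    have h3 : (G.card : ℝ) ≤ (C1 * k) ^ (S.card + 1) * ((k : ℝ) * k) ^ S.card := by
      have h4 : (G.card : ℝ) ≤ (⌊(C1 * k) ^ (S.card + 1)⌋₊ : ℝ) * ((G.image f).card : ℝ) := by
        exact_mod_cast hcard
      refine h4.trans ?_
      apply mul_le_mul _ _ (by positivity) (by positivity)
      · exact Nat.floor_le (by positivity)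
      · exact_mod_cast himg
    refine h3.trans ?_
    rw [hK1, mul_pow ((k : ℝ) * k), mul_comm]
    apply mul_le_mul_of_nonneg_right _ (by positivity)
    apply pow_le_pow_right₀ _ (by omega)
    nlinarith
  have hsplit : (F.card : ℝ) = ((F.filter fun v => lh v.1 v.2 < C1 * k).card : ℝ) +
      ((F.filter fun v => ¬ lh v.1 v.2 < C1 * k).card : ℝ) := by
    have := Finset.card_filter_add_card_filter_not (s := F) (fun v => lh v.1 v.2 < C1 * k)
    exact_mod_cast this.symm
  rw [hsplit]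
  have h5 : K0 ≤ K0 ^ (S.card + 1) := le_self_pow₀ hK0' (by omega)
  calc ((F.filter fun v => lh v.1 v.2 < C1 * k).card : ℝ) +
      ((F.filter fun v => ¬ lh v.1 v.2 < C1 * k).card : ℝ)
      ≤ K0 ^ (S.card + 1) + K1 ^ (S.card + 1) := add_le_add (hsmall.trans h5) hlarge
    _ ≤ _ := pow_add_pow_le (by linarith) hK1' (by omega)

end Pool.Agent.H98.ABCR
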