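import Pool.Agent.H98.ABCR.Stmts

set_option autoImplicit false

namespace Pool.Agent.H98.ABCR

open Finset Polynomial

private theorem gcl_three (J : Finset ℕ) (hne : J.Nonempty) (hc : J.card ≤ 3) :
    ∃ a ∈ J, ∃ b ∈ J, ∃ c ∈ J, ∀ j ∈ J, j = a ∨ j = b ∨ j = c := by
  have h1 : 1 ≤ J.card := Finset.card_pos.2 hne
  have h : J.card = 1 ∨ J.card = 2 ∨ J.card = 3 := by omega
  rcases h with h | h | h
  · obtain ⟨a, rfl⟩ := Finset.card_eq_one.1 h
    exact ⟨a, by simp, a, by simp, a, by simp, by simp⟩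
  · obtain ⟨a, b, -, rfl⟩ := Finset.card_eq_two.1 h
    exact ⟨a, by simp, b, by simp, b, by simp, by simp⟩
  · obtain ⟨a, b, c, -, -, -, rfl⟩ := Finset.card_eq_three.1 h
    exact ⟨a, by simp, b, by simp, c, by simp, by simp⟩

/-- divisors -/
theorem gcl_thm : S_GCL := by
  intro e J g he hne hc hJ
  by_contra hcon
  push Not at hcon
  obtain ⟨a, ha, b, hb, c, hc', habc⟩ := gcl_three J hne hc
  obtain ⟨ga, ga'⟩ := hJ a ha
  obtain ⟨gb, gb'⟩ := hJ b hb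
  obtain ⟨gc, gc'⟩ := hJ c hc'
  have hcop : Nat.Coprime (Nat.gcd (g a) (g b)) (g c) := by
    rw [Nat.coprime_iff_gcd_eq_one]
    by_contra h
    obtain ⟨k, hk, hkd⟩ := Nat.exists_prime_and_dvd h
    have h1 : k ∣ Nat.gcd (g a) (g b) := hkd.trans (Nat.gcd_dvd_left _ _)
    have h2 : k ∣ g a := h1.trans (Nat.gcd_dvd_left _ _)
    have h3 : k ∣ g b := h1.trans (Nat.gcd_dvd_right _ _)
    have h4 : k ∣ g c := hkd.trans (Nat.gcd_dvd_right _ _)
    obtain ⟨j, hj, hkj⟩ := hcon k hk (h2.trans ga)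
    rcases habc j hj with rfl | rfl | rfl
    · exact hkj h2
    · exact hkj h3
    · exact hkj h4
  have h1 : Nat.gcd (g a) (g b) * g c ∣ e :=
    hcop.mul_dvd_of_dvd_of_dvd ((Nat.gcd_dvd_left _ _).trans ga) gc
  have h2 : Nat.lcm (g a) (g b) ∣ e := Nat.lcm_dvd ga gb
  have h3 : g a * g b * g c ∣ e * e := by
    have : g a * g b * g c = (Nat.gcd (g a) (g b) * g c) * Nat.lcm (g a) (g b) := by
      rw [← Nat.gcd_mul_lcm (g a) (g b)]
      ring
    rw [this]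
    exact Nat.mul_dvd_mul h1 h2
  have h4 : g a * g b * g c ≤ e * e := Nat.le_of_dvd (by positivity) h3
  have he0 : (0 : ℝ) < e := by
    have : 0 < e := by omega
    exact_mod_cast this
  have h5 : ((e : ℝ) ^ (2 / 3 : ℝ)) * ((e : ℝ) ^ (2 / 3 : ℝ)) * ((e : ℝ) ^ (2 / 3 : ℝ)) = e * e := by
    rw [← Real.rpow_add he0, ← Real.rpow_add he0]
    have : (2 / 3 + 2 / 3 + 2 / 3 : ℝ) = (2 : ℕ) := by norm_num
    rw [this, Real.rpow_natCast, pow_two]
  have hp : 0 < (e : ℝ) ^ (2 / 3 : ℝ) := Real.rpow_pos_of_pos he0 _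
  have h6 : (e : ℝ) * e < g a * g b * g c := by
    rw [← h5]
    apply mul_lt_mul'' _ gc' (by positivity) hp.le
    exact mul_lt_mul'' ga' gb' hp.le hp.le
  have h7 : ((g a * g b * g c : ℕ) : ℝ) ≤ ((e * e : ℕ) : ℝ) := by exact_mod_cast h4
  push_cast at h7
  linarith

end Pool.Agent.H98.ABCR
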